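import Pool.Agent.U708.NB.Fam

/-!
# Connected real-analytic families of relative periodic solutions near a Lyapunov stable orbit
-/

set_option autoImplicit false

namespace Pool.Agent.Results.MP_5027f4_mp.AnalyticFamilies

/-- Phase points of `n` bodies in the plane `ℂ`: positions and velocities (product topology). -/
abbrev Ph (n : ℕ) := (Fin n → ℂ) × (Fin n → ℂ)

/-- Newtonian acceleration of body `a`: `∑_{b ≠ a} m_b (q_b - q_a) / |q_b - q_a|^3`. -/
noncomputable def acc {n : ℕ} (m : Fin n → ℝ) (q : Fin n → ℂ) (a : Fin n) : ℂ :=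
  ∑ b ∈ Finset.univ.erase a, ((m b / ‖q b - q a‖ ^ 3 : ℝ) : ℂ) * (q b - q a)

/-- Total energy: kinetic energy minus the sum over pairs of `m_a m_b / |q_b - q_a|` (each pair occurs
twice in the double sum, which is halved). -/
noncomputable def energy {n : ℕ} (m : Fin n → ℝ) (z : Ph n) : ℝ :=
  (∑ a, m a * ‖z.2 a‖ ^ 2) / 2 -
    (∑ a, ∑ b ∈ Finset.univ.erase a, m a * m b / ‖z.1 b - z.1 a‖) / 2

/-- The phase space in the centre of mass frame: no collisions, `∑ m_a q_a = 0`, `∑ m_a v_a = 0`. -/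
def phaseSpace {n : ℕ} (m : Fin n → ℝ) : Set (Ph n) :=
  {z | (∀ a b, a ≠ b → z.1 a ≠ z.1 b) ∧ ∑ a, (m a : ℂ) * z.1 a = 0 ∧ ∑ a, (m a : ℂ) * z.2 a = 0}

/-- `x = (q, v)` is a solution of Newton's equations on the time set `J`, in the centre of mass frame. -/
def IsSol {n : ℕ} (m : Fin n → ℝ) (J : Set ℝ) (x : ℝ → Ph n) : Prop :=
  ∀ t ∈ J, x t ∈ phaseSpace m ∧ HasDerivWithinAt x ((x t).2, acc m (x t).1) J t

/-- All mutual distances of the solution `x` are `T`-periodic functions of time. -/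
def DistPer {n : ℕ} (x : ℝ → Ph n) (T : ℝ) : Prop :=
  ∀ t a b, ‖(x (t + T)).1 a - (x (t + T)).1 b‖ = ‖(x t).1 a - (x t).1 b‖

/-- All mutual distances are constant: a relative equilibrium. -/
def IsRelEq {n : ℕ} (x : ℝ → Ph n) : Prop :=
  ∀ t a b, ‖(x t).1 a - (x t).1 b‖ = ‖(x 0).1 a - (x 0).1 b‖

/-- Lyapunov stability of an orbit `γ` in the centre of mass frame: for every neighbourhood `U₁` there is
a neighbourhood `U₂` such that every solution on `[0, ∞)` that starts in `U₂` stays in `U₁`. -/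
def LyapunovStable {n : ℕ} (m : Fin n → ℝ) (γ : Set (Ph n)) : Prop :=
  ∀ U₁ : Set (Ph n), IsOpen U₁ → γ ⊆ U₁ → ∃ U₂ : Set (Ph n), IsOpen U₂ ∧ γ ⊆ U₂ ∧
    ∀ y : ℝ → Ph n, IsSol m (Set.Ici 0) y → y 0 ∈ U₂ → ∀ t : ℝ, 0 ≤ t → y t ∈ U₁

/-- A real-analytic family of relative periodic solutions `y s`, `s ∈ D`, whose mutual distances have
the period `S s > 0`; `D` is a connected open set of parameters in a normed space `V`. -/
structure Family {n : ℕ} (m : Fin n → ℝ) {V : Type} [NormedAddCommGroup V] [NormedSpace ℝ V]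
    (D : Set V) (y : V → ℝ → Ph n) (S : V → ℝ) : Prop where
  isOpen : IsOpen D
  connected : IsPreconnected D
  analytic : AnalyticOnNhd ℝ (fun p : V × ℝ => y p.1 p.2) (D ×ˢ Set.univ)
  analytic_period : AnalyticOnNhd ℝ S D
  sol : ∀ s ∈ D, IsSol m Set.univ (y s)
  pos : ∀ s ∈ D, 0 < S s
  per : ∀ s ∈ D, DistPer (y s) (S s)

/-- Planar `n`-body problem. Let the orbit `γ` of a relative periodic solution `x` be Lyapunov stable
in the centre of mass frame, `x` not a relative equilibrium. There are `K ≥ 1` and a neighbourhood `U`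
of `γ` with the following property. Let `y s`, `s ∈ D`, be a connected real-analytic family of relative
periodic solutions with periods `S s` of the mutual distances, of which at least one member starts in
`U`; the others may be arbitrarily far from `γ`. Then there are one `K`-th root of unity `c` and one
real `κ` such that for *every* member: during two periods of the distances the solution is rotated by
`c`, the solution has the period `2 K S s`, the energy `E` satisfies `S(s)^2 E(s)^3 = κ`, and if the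
member is a relative equilibrium, its angular velocity `Ω` satisfies `K Ω S(s) = j π`, `j` an
integer. -/
theorem result {n : ℕ} {m : Fin n → ℝ} (hn : 2 ≤ n) (hm : ∀ a, 0 < m a) {x : ℝ → Ph n}
    (hx : IsSol m Set.univ x) {T : ℝ} (hT0 : 0 < T) (hT : DistPer x T) (hne : ¬ IsRelEq x)
    (hst : LyapunovStable m (Set.range x)) :
    ∃ (K : ℕ) (U : Set (Ph n)), 1 ≤ K ∧ IsOpen U ∧ Set.range x ⊆ U ∧
      ∀ (V : Type) [NormedAddCommGroup V] [NormedSpace ℝ V] (D : Set V) (y : V → ℝ → Ph n)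
        (S : V → ℝ), Family m D y S → (∃ s ∈ D, y s 0 ∈ U) →
        ∃ (c : ℂ) (κ : ℝ), c ^ K = 1 ∧ ∀ s ∈ D,
          (∀ t, y s (t + 2 * S s) = c • y s t) ∧
          (∀ t, y s (t + 2 * K * S s) = y s t) ∧
          S s ^ 2 * energy m (y s 0) ^ 3 = κ ∧
          (IsRelEq (y s) → ∃ (Ω : ℝ) (j : ℤ),
            (∀ t : ℝ, y s t = Complex.exp (Ω * t * Complex.I) • y s 0) ∧
            K * (Ω * S s) = Real.pi * j) := by
  rcases Pool.Agent.W821.TB.final hn hm hx hT0 hT hst with h | ⟨K, hK, -, U, hU, hγ, hl, -⟩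
  · exact absurd h hne
  refine ⟨K, U, hK, hU, hγ, ?_⟩
  intro V _ _ D y S hF ⟨s₀, hs₀, hsU⟩
  obtain ⟨c, hcK, hrot, hperK, hkep⟩ := Pool.Agent.U708.NB.whole hn hm hU hK hl hF.isOpen
    hF.connected hF.analytic hF.analytic_period hF.sol hF.pos hF.per hs₀ hsU
  refine ⟨c, _, hcK, fun s hs => ⟨hrot s hs, hperK s hs, hkep s hs, fun hre => ?_⟩⟩
  obtain ⟨Ω, hΩ⟩ := Pool.Agent.U708.NB.releq_exp hn hm (hF.sol s hs) hre
  obtain ⟨j, hj⟩ := Pool.Agent.U708.NB.releq hn (hF.sol s hs) hcK (hrot s hs) hΩ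
  exact ⟨Ω, j, hΩ, hj⟩

end Pool.Agent.Results.MP_5027f4_mp.AnalyticFamilies
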