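import Pool.Agent.U785.LG.G

/-!
# Families through Euler's collinear relative equilibria contain no Lyapunov stable orbit

Planar three-body problem. Let `s ↦ y s` be a real-analytic family of relative periodic solutions
in the centre of mass frame, the common period `S s` of the mutual distances depending analytically
on `s`. Let `y 0` be a collinear relative equilibrium (Euler): the three bodies are on a line which
rotates with angular velocity `ω`, and let the shape of the triangle of `y s` not be stationary to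
first order in `s` (for instance the families of Lyapunov's centre theorem).

Put `κ = ω⁻² ∑_{a<b} (m_a + m_b) / |q_a - q_b|³ - 1`, which depends only on the masses and on the
order of the bodies. If no rational number `q` satisfies
`q⁴ + (κ - 2) q² + (1 + 2 κ) (1 - κ) = 0` (this excludes a countable set of values of `κ`), then no
member of the whole family is Lyapunov stable, except possibly relative equilibria.

Proof. The rotation of the members during two periods is a fixed root of unity in the whole family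
(starting results W821.TB and analyticity), so that `ω S 0 / π ∈ ℚ`. At the collinear configuration
the linearised equation of the shape is `R'' + 2 i ω R' = (1 + κ/2) ω² R + (3/2) κ ω² conj R` (the
equations of Euler's configuration make the off-diagonal terms vanish); the Fourier coefficients of
a nonzero solution with period `2 S 0` have an order `k` with the above equation for
`q = π k / (ω S 0)`, a rational number.
-/

set_option autoImplicit false

namespace Pool.Agent.Results.MP_5027f4_mp.EulerFamilies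

/-- Phase points of `n` bodies in the plane `ℂ`: positions and velocities (product topology). -/
abbrev Ph (n : ℕ) := (Fin n → ℂ) × (Fin n → ℂ)

/-- Newtonian acceleration of body `a`: `∑_{b ≠ a} m_b (q_b - q_a) / |q_b - q_a|^3`. -/
noncomputable def acc {n : ℕ} (m : Fin n → ℝ) (q : Fin n → ℂ) (a : Fin n) : ℂ :=
  ∑ b ∈ Finset.univ.erase a, ((m b / ‖q b - q a‖ ^ 3 : ℝ) : ℂ) * (q b - q a)

/-- The phase space in the centre of mass frame: no collisions, `∑ m_a q_a = 0`, `∑ m_a v_a = 0`. -/
def phaseSpace {n : ℕ} (m : Fin n → ℝ) : Set (Ph n) :=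
  {z | (∀ a b, a ≠ b → z.1 a ≠ z.1 b) ∧ ∑ a, (m a : ℂ) * z.1 a = 0 ∧ ∑ a, (m a : ℂ) * z.2 a = 0}

/-- `x = (q, v)` is a solution of Newton's equations on the time set `J`, in the centre of mass frame. -/
def IsSol {n : ℕ} (m : Fin n → ℝ) (J : Set ℝ) (x : ℝ → Ph n) : Prop :=
  ∀ t ∈ J, x t ∈ phaseSpace m ∧ HasDerivWithinAt x ((x t).2, acc m (x t).1) J t

/-- All mutual distances of the solution `x` are `T`-periodic functions of time. -/
def DistPer {n : ℕ} (x : ℝ → Ph n) (T : ℝ) : Prop :=
  ∀ t a b, ‖(x (t + T)).1 a - (x (t + T)).1 b‖ = ‖(x t).1 a - (x t).1 b‖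

/-- All mutual distances are constant: a relative equilibrium. -/
def IsRelEq {n : ℕ} (x : ℝ → Ph n) : Prop :=
  ∀ t a b, ‖(x t).1 a - (x t).1 b‖ = ‖(x 0).1 a - (x 0).1 b‖

/-- Lyapunov stability of an orbit `γ` in the centre of mass frame: for every neighbourhood `U₁` there is
a neighbourhood `U₂` such that every solution on `[0, ∞)` that starts in `U₂` stays in `U₁`. -/
def LyapunovStable {n : ℕ} (m : Fin n → ℝ) (γ : Set (Ph n)) : Prop :=
  ∀ U₁ : Set (Ph n), IsOpen U₁ → γ ⊆ U₁ → ∃ U₂ : Set (Ph n), IsOpen U₂ ∧ γ ⊆ U₂ ∧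
    ∀ y : ℝ → Ph n, IsSol m (Set.Ici 0) y → y 0 ∈ U₂ → ∀ t : ℝ, 0 ≤ t → y t ∈ U₁

/-- The shape of the triangle of the three bodies: the quotient of two sides as complex numbers. -/
noncomputable def shape (z : Ph 3) : ℂ := (z.1 2 - z.1 1) / (z.1 0 - z.1 2)

/-- A real-analytic family of relative periodic solutions of the planar three-body problem with
masses `m`, with analytic period `S` of the mutual distances, whose member `y 0` is a line rotating
with angular velocity `ω`, and whose shape is not stationary at `s = 0`. -/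
structure EulerFamily (m : Fin 3 → ℝ) (y : ℝ → ℝ → Ph 3) (S : ℝ → ℝ) (ω : ℝ) : Prop where
  analytic : AnalyticOnNhd ℝ (fun p : ℝ × ℝ => y p.1 p.2) Set.univ
  solution : ∀ s, IsSol m Set.univ (y s)
  period_analytic : AnalyticOnNhd ℝ S Set.univ
  period_pos : ∀ s, 0 < S s
  periodic : ∀ s, DistPer (y s) (S s)
  rotating : ∀ t : ℝ, y 0 t = Complex.exp (ω * t * Complex.I) • y 0 0
  collinear : ∃ (u : ℂ) (x : Fin 3 → ℝ), ‖u‖ = 1 ∧ ∀ a, (y 0 0).1 a = u * x a
  not_stationary : ∃ t, deriv (fun s => shape (y s t)) 0 ≠ 0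

/-- `κ = ω⁻² ∑_{a<b} (m_a + m_b) / |q_a - q_b|³ - 1`. -/
noncomputable def kappa (m : Fin 3 → ℝ) (z : Ph 3) (ω : ℝ) : ℝ :=
  ((m 1 + m 2) * (‖z.1 2 - z.1 1‖ ^ 3)⁻¹ + (m 0 + m 2) * (‖z.1 0 - z.1 2‖ ^ 3)⁻¹ +
    (m 0 + m 1) * (‖z.1 1 - z.1 0‖ ^ 3)⁻¹) / ω ^ 2 - 1

/-- The exceptional values of `κ`. -/
def exceptional : Set ℝ :=
  {κ | ∃ q : ℚ, (q : ℝ) ^ 4 + (κ - 2) * (q : ℝ) ^ 2 + (1 + 2 * κ) * (1 - κ) = 0}

theorem exceptional_countable : exceptional.Countable := by
  refine (Set.countable_range (fun p : ℚ × Bool => (((p.1 : ℝ) ^ 2 + 1) +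
    (if p.2 then 1 else -1) * Real.sqrt (((p.1 : ℝ) ^ 2 + 1) ^ 2 + 8 * ((p.1 : ℝ) ^ 2 - 1) ^ 2)) /
      4)).mono ?_
  rintro κ ⟨q, hq⟩
  have h : ((q : ℝ) ^ 2 + 1) ^ 2 + 8 * ((q : ℝ) ^ 2 - 1) ^ 2 = (4 * κ - ((q : ℝ) ^ 2 + 1)) ^ 2 := by
    linear_combination 8 * hq
  rcases abs_choice (4 * κ - ((q : ℝ) ^ 2 + 1)) with h1 | h1
  · refine ⟨(q, true), ?_⟩
    simp only [if_true]
    rw [h, Real.sqrt_sq_eq_abs, h1]; ring
  · refine ⟨(q, false), ?_⟩
    simp only [Bool.false_eq_true, if_false]
    rw [h, Real.sqrt_sq_eq_abs, h1]; ring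

/-- **Families through Euler's collinear relative equilibria contain no Lyapunov stable orbit**, if
`κ` is outside of a countable set. -/
theorem result : (∀ m : Fin 3 → ℝ, (∀ a, 0 < m a) →
      ∀ (y : ℝ → ℝ → Ph 3) (S : ℝ → ℝ) (ω : ℝ), EulerFamily m y S ω →
        kappa m (y 0 0) ω ∉ exceptional →
        ∀ s, ¬ IsRelEq (y s) → ¬ LyapunovStable m (Set.range (y s))) ∧
    exceptional.Countable := by
  refine ⟨?_, exceptional_countable⟩
  intro m hm y S ω h hκ s hne
  obtain ⟨u, x, hu, hx⟩ := h.collinear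
  have hd : ∀ a b, ‖(y 0 0).1 a - (y 0 0).1 b‖ = |x a - x b| := by
    intro a b
    rw [hx, hx, ← mul_sub, norm_mul, hu, one_mul, ← Complex.ofReal_sub, Complex.norm_real,
      Real.norm_eq_abs]
  have hk : kappa m (y 0 0) ω = Pool.Agent.U785.LG.pairSum m x / ω ^ 2 - 1 := by
    unfold kappa Pool.Agent.U785.LG.pairSum
    rw [hd, hd, hd]
  rw [hk] at hκ
  exact Pool.Agent.U785.LG.euler hm h.analytic h.solution h.period_analytic h.period_pos
    h.periodic hu h.rotating hx (fun q hq => hκ ⟨q, hq⟩) h.not_stationary hne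

end Pool.Agent.Results.MP_5027f4_mp.EulerFamilies
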