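import Pool.Agent.U785.LG.E

/-!
# Families through Lagrange's equilateral solution contain no Lyapunov stable orbit

Planar three-body problem. Let `s ↦ y s` be a real-analytic family of relative periodic solutions
in the centre of mass frame, the common period `S s` of the mutual distances depending analytically
on `s`. Let `y 0` be Lagrange's relative equilibrium, an equilateral triangle which rotates
uniformly, and let the triangle of `y s` not stay equilateral to first order in `s` (short and long
period families of Lyapunov's centre theorem).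

If `β = (m₀m₁ + m₁m₂ + m₂m₀) / (m₀ + m₁ + m₂)²` is not of the form `4 q² (1 - q²) / 27` with `q`
rational (for instance if `β` is irrational), then no member of the whole family is Lyapunov
stable, except possibly relative equilibria.

Proof. By the starting results (W821.TB) the rotation of the members near a Lyapunov stable one is
a fixed root of unity, hence it is so in the whole family by analyticity, so that the angular
velocity `ω` of `y 0` satisfies `ω S 0 / π ∈ ℚ`. The linearised equation of the shape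
`R = (q₂ - q₁) / (q₀ - q₂)` at the equilateral triangle is
`R'' + 2 i ω R' = (3 ω² / 2) R + b conj R` with `|b|² = (9/4) ω⁴ (1 - 3 β)`, and its nonzero periodic
solutions with period `2 S 0` have Fourier coefficients of an order `k` with
`x⁴ - x² + 27 β / 4 = 0`, `x = π k / (ω S 0)`, a rational number.
-/

set_option autoImplicit false

namespace Pool.Agent.Results.MP_5027f4_mp.LagrangeFamilies

/-- Phase points of `n` bodies in the plane `ℂ`: positions and velocities (product topology). -/
abbrev Ph (n : ℕ) := (Fin n → ℂ) × (Fin n → ℂ)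

/-- Newtonian acceleration of body `a`: `∑_{b ≠ a} m_b (q_b - q_a) / |q_b - q_a|^3`. -/
noncomputable def acc {n : ℕ} (m : Fin n → ℝ) (q : Fin n → ℂ) (a : Fin n) : ℂ :=
  ∑ b ∈ Finset.univ.erase a, ((m b / ‖q b - q a‖ ^ 3 : ℝ) : ℂ) * (q b - q a)

/-- The phase space in the centre of mass frame: no collisions, `∑ m_a q_a = 0`, `∑ m_a v_a = 0`. -/
def phaseSpace {n : ℕ} (m : Fin n → ℝ) : Set (Ph n) :=
  {z | (∀ a b, a ≠ b → z.1 a ≠ z.1 b) ∧ ∑ a, (m a : ℂ) * z.1 a = 0 ∧ ∑ a, (m a : ℂ) * z.2 a = 0}

/-- `x = (q, v)` is a solution of Newton's equations on the time set `J`, in the centre of mass frame. -/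
def IsSol {n : ℕ} (m : Fin n → ℝ) (J : Set ℝ) (x : ℝ → Ph n) : Prop :=
  ∀ t ∈ J, x t ∈ phaseSpace m ∧ HasDerivWithinAt x ((x t).2, acc m (x t).1) J t

/-- All mutual distances of the solution `x` are `T`-periodic functions of time. -/
def DistPer {n : ℕ} (x : ℝ → Ph n) (T : ℝ) : Prop :=
  ∀ t a b, ‖(x (t + T)).1 a - (x (t + T)).1 b‖ = ‖(x t).1 a - (x t).1 b‖

/-- All mutual distances are constant: a relative equilibrium. -/
def IsRelEq {n : ℕ} (x : ℝ → Ph n) : Prop :=
  ∀ t a b, ‖(x t).1 a - (x t).1 b‖ = ‖(x 0).1 a - (x 0).1 b‖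

/-- Lyapunov stability of an orbit `γ` in the centre of mass frame: for every neighbourhood `U₁` there is
a neighbourhood `U₂` such that every solution on `[0, ∞)` that starts in `U₂` stays in `U₁`. -/
def LyapunovStable {n : ℕ} (m : Fin n → ℝ) (γ : Set (Ph n)) : Prop :=
  ∀ U₁ : Set (Ph n), IsOpen U₁ → γ ⊆ U₁ → ∃ U₂ : Set (Ph n), IsOpen U₂ ∧ γ ⊆ U₂ ∧
    ∀ y : ℝ → Ph n, IsSol m (Set.Ici 0) y → y 0 ∈ U₂ → ∀ t : ℝ, 0 ≤ t → y t ∈ U₁

/-- The shape of the triangle of the three bodies: the quotient of two sides as complex numbers. -/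
noncomputable def shape (z : Ph 3) : ℂ := (z.1 2 - z.1 1) / (z.1 0 - z.1 2)

/-- A real-analytic family of relative periodic solutions of the planar three-body problem with
masses `m`, with analytic period `S` of the mutual distances, whose member `y 0` is an equilateral
triangle rotating uniformly, and whose shape is not stationary at `s = 0`. -/
structure LagrangeFamily (m : Fin 3 → ℝ) (y : ℝ → ℝ → Ph 3) (S : ℝ → ℝ) : Prop where
  analytic : AnalyticOnNhd ℝ (fun p : ℝ × ℝ => y p.1 p.2) Set.univ
  solution : ∀ s, IsSol m Set.univ (y s)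
  period_analytic : AnalyticOnNhd ℝ S Set.univ
  period_pos : ∀ s, 0 < S s
  periodic : ∀ s, DistPer (y s) (S s)
  rotating : ∃ ω : ℝ, ∀ t : ℝ, y 0 t = Complex.exp (ω * t * Complex.I) • y 0 0
  equilateral : ∃ r : ℝ, ∀ a b, a ≠ b → ‖(y 0 0).1 a - (y 0 0).1 b‖ = r
  not_stationary : ∃ t, deriv (fun s => shape (y s t)) 0 ≠ 0

/-- The mass parameter `β = (m₀m₁ + m₁m₂ + m₂m₀) / (m₀ + m₁ + m₂)²`. -/
noncomputable def massParameter (m : Fin 3 → ℝ) : ℝ :=
  (m 0 * m 1 + m 1 * m 2 + m 2 * m 0) / (m 0 + m 1 + m 2) ^ 2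

/-- The countable exceptional set `{4 q² (1 - q²) / 27 : q ∈ ℚ}`. -/
def exceptional : Set ℝ := {β | ∃ q : ℚ, β = 4 / 27 * ((q : ℝ) ^ 2 * (1 - (q : ℝ) ^ 2))}

/-- **Families through Lagrange's equilateral solution contain no Lyapunov stable orbit**, for all
mass parameters outside a set of rational numbers. -/
theorem result : (∀ m : Fin 3 → ℝ, (∀ a, 0 < m a) → massParameter m ∉ exceptional →
      ∀ (y : ℝ → ℝ → Ph 3) (S : ℝ → ℝ), LagrangeFamily m y S →
        ∀ s, ¬ IsRelEq (y s) → ¬ LyapunovStable m (Set.range (y s))) ∧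
    exceptional ⊆ Set.range ((↑) : ℚ → ℝ) := by
  constructor
  · intro m hm hβ y S h s hne
    obtain ⟨ω, hω⟩ := h.rotating
    obtain ⟨r, hr⟩ := h.equilateral
    exact Pool.Agent.U785.LG.lagrange hm (fun q hq => hβ ⟨q, hq⟩) h.analytic h.solution
      h.period_analytic h.period_pos h.periodic hω hr h.not_stationary hne
  · rintro β ⟨q, rfl⟩
    exact ⟨4 / 27 * (q ^ 2 * (1 - q ^ 2)), by push_cast; ring⟩

end Pool.Agent.Results.MP_5027f4_mp.LagrangeFamilies
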